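import Pool.Agent.T6.H41.MM4
import Pool.Agent.Helper481.MB4

/-!
# MP_77d991_gt, Q1: the maximal Gromov mass of a unit ball

For every `d ≥ 1`, the largest value of Gromov's mass `vol^m_M (M)` over all `o`-symmetric convex
bodies `M` of `ℝ ^ d` is the volume `κ_d` of the Euclidean unit ball, and it is attained exactly by
the ellipsoids centred at the origin.
-/

set_option autoImplicit false
open MeasureTheory Set Module
open Metric (closedBall)
open scoped ENNReal

namespace Pool.Agent.Results.MP_77d991_gt.MaximalMass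

variable {d : ℕ}

/-- An `o`-symmetric convex body: a compact convex set with nonempty interior and `M = -M`. -/
structure IsSymConvexBody (M : Set (Fin d → ℝ)) : Prop where
  isCompact : IsCompact M
  convex : Convex ℝ M
  interior_nonempty : (interior M).Nonempty
  neg_mem : ∀ x ∈ M, -x ∈ M

/-- The set `conv {v 1, -v 1, …, v d, -v d}`. -/
def crossPolytope (v : Fin d → Fin d → ℝ) : Set (Fin d → ℝ) :=
  convexHull ℝ (Set.range (fun i => v i) ∪ Set.range (fun i => -v i))

/-- The volumes of the cross-polytopes inscribed in `M`. -/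
def crossVolumes (M : Set (Fin d → ℝ)) : Set ℝ :=
  {r | ∃ v : Fin d → Fin d → ℝ, LinearIndependent ℝ v ∧ (∀ i, v i ∈ M) ∧
    r = (volume (crossPolytope v)).toReal}

/-- Gromov's mass `vol^m_M (M)` of `M`: the volume of `M`, multiplied by the number for which the
largest volume of a cross-polytope inscribed in `M` becomes `2 ^ d / d!`. -/
noncomputable def mass (M : Set (Fin d → ℝ)) : ℝ :=
  2 ^ d / d.factorial * (volume M).toReal / sSup (crossVolumes M)

/-- The ellipsoids centred at the origin: the images of the Euclidean unit ball under the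
invertible linear maps. -/
def IsEllipsoid (M : Set (Fin d → ℝ)) : Prop :=
  ∃ A : (Fin d → ℝ) ≃ₗ[ℝ] (Fin d → ℝ), M = A '' {x | ∑ i, x i ^ 2 ≤ 1}

open Pool.Agent.Helper481.MB Pool.Agent.Helper481.RH Pool.Agent.T6.H41.MM

lemma crossPolytope_eq (v : Fin d → Fin d → ℝ) :
    crossPolytope v = Pool.Agent.Helper481.MS.crossPolytope 0 v := by
  unfold crossPolytope Pool.Agent.Helper481.MS.crossPolytope
  simp only [zero_add, zero_sub]

lemma vol_cp (hd : 0 < d) (v : Fin d → Fin d → ℝ) :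
    (volume (crossPolytope v)).toReal = |(Matrix.of v).det| * (2 ^ d / d.factorial) := by
  rw [crossPolytope_eq, Pool.Agent.Helper481.MS.vol_cross, vol_std hd, ENNReal.toReal_mul,
    ENNReal.toReal_ofReal (abs_nonneg _), ENNReal.toReal_ofReal (by positivity)]

lemma linInd_iff (v : Fin d → Fin d → ℝ) : LinearIndependent ℝ v ↔ (Matrix.of v).det ≠ 0 := by
  have h1 := Matrix.linearIndependent_rows_iff_isUnit (A := Matrix.of v)
  rw [Matrix.isUnit_iff_isUnit_det, isUnit_iff_ne_zero] at h1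
  exact h1

/-- a maximizing tuple -/
lemma exists_maximizer {M : Set (Fin d → ℝ)} (hM : IsSymConvexBody M) :
    ∃ v : Fin d → Fin d → ℝ, (∀ i, v i ∈ M) ∧ 0 < |(Matrix.of v).det| ∧
      ∀ w : Fin d → Fin d → ℝ, (∀ i, w i ∈ M) → |(Matrix.of w).det| ≤ |(Matrix.of v).det| := by
  have hne : M.Nonempty := hM.interior_nonempty.mono interior_subset
  have hc : Continuous fun v : Fin d → Fin d → ℝ => |(Matrix.of v).det| := by
    refine Continuous.abs (Continuous.matrix_det ?_)
    exact continuous_id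
  obtain ⟨v, hv, hmax⟩ := (isCompact_univ_pi fun _ : Fin d => hM.isCompact).exists_isMaxOn
    (univ_pi_nonempty_iff.2 fun _ => hne) hc.continuousOn
  refine ⟨v, fun i => hv i (mem_univ i), ?_, fun w hw => hmax (fun i _ => hw i)⟩
  -- a small cube
  obtain ⟨z, hz⟩ := hM.interior_nonempty
  have hcont : ∀ i, Continuous fun s : ℝ => z + s • (Pi.single i (1:ℝ) : Fin d → ℝ) := by
    intro i; fun_prop
  have h1 : ∀ᶠ s : ℝ in nhds 0, ∀ i, z + s • (Pi.single i (1:ℝ) : Fin d → ℝ) ∈ interior M := by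
    rw [Filter.eventually_all]
    intro i
    refine (hcont i).continuousAt.eventually (isOpen_interior.mem_nhds ?_)
    show z + (0:ℝ) • (Pi.single i (1:ℝ) : Fin d → ℝ) ∈ interior M
    rw [zero_smul, add_zero]
    exact hz
  obtain ⟨s, hs1, hs2⟩ := ((h1.filter_mono nhdsWithin_le_nhds).and
    (self_mem_nhdsWithin (s := Ioi (0:ℝ)))).exists
  have hs0 : (0:ℝ) < s := hs2
  have h2 : ∀ i, (s / 2) • (Pi.single i (1:ℝ) : Fin d → ℝ) ∈ M := by
    intro i
    have h3 := hM.convex (interior_subset (hs1 i)) (hM.neg_mem z (interior_subset hz))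
      (by norm_num : (0:ℝ) ≤ 1 / 2) (by norm_num : (0:ℝ) ≤ 1 / 2) (by norm_num)
    have h4 : (1 / 2 : ℝ) • (z + s • (Pi.single i (1:ℝ) : Fin d → ℝ)) + (1 / 2 : ℝ) • (-z) =
      (s / 2) • (Pi.single i (1:ℝ) : Fin d → ℝ) := by module
    rwa [h4] at h3
  have h5 := hmax (fun i _ => h2 i)
  refine lt_of_lt_of_le ?_ h5
  have h6 : Matrix.of (fun i => (s / 2) • (Pi.single i (1:ℝ) : Fin d → ℝ)) =
      (s / 2) • (1 : Matrix (Fin d) (Fin d) ℝ) := by
    ext i j
    rw [Matrix.of_apply, Matrix.smul_apply, Pi.smul_apply, Matrix.one_apply, Pi.single_apply]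
    simp only [eq_comm]
  show 0 < |(Matrix.of (fun i => (s / 2) • (Pi.single i (1:ℝ) : Fin d → ℝ))).det|
  rw [h6, Matrix.det_smul, Matrix.det_one, mul_one]
  positivity

/-- the largest volume of an inscribed cross-polytope, and the mass -/
lemma mass_eq (hd : 0 < d) {M : Set (Fin d → ℝ)} {v : Fin d → Fin d → ℝ}
    (hv : ∀ i, v i ∈ M) (hpos : 0 < |(Matrix.of v).det|)
    (hmax : ∀ w : Fin d → Fin d → ℝ, (∀ i, w i ∈ M) → |(Matrix.of w).det| ≤ |(Matrix.of v).det|) :
    IsGreatest (crossVolumes M) (|(Matrix.of v).det| * (2 ^ d / d.factorial)) ∧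
    mass M = (volume M).toReal / |(Matrix.of v).det| := by
  have h1 : IsGreatest (crossVolumes M) (|(Matrix.of v).det| * (2 ^ d / d.factorial)) := by
    constructor
    · exact ⟨v, (linInd_iff v).2 (abs_pos.1 hpos), hv, (vol_cp hd v).symm⟩
    · rintro r ⟨w, -, hw, rfl⟩
      rw [vol_cp hd]
      exact mul_le_mul_of_nonneg_right (hmax w hw) (by positivity)
  refine ⟨h1, ?_⟩
  rw [mass, h1.csSup_eq]
  have : (0:ℝ) < 2 ^ d / d.factorial := by positivity
  rw [mul_comm |(Matrix.of v).det|, mul_div_mul_left _ _ this.ne']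

lemma kappa_val (hd : 0 < d) :
    kappa d = ENNReal.ofReal (√Real.pi ^ d / Real.Gamma ((d : ℝ) / 2 + 1)) := by
  have : Nonempty (Fin d) := ⟨⟨0, hd⟩⟩
  rw [← kap_eq, kap, EuclideanSpace.volume_closedBall]
  simp

lemma kappa_pos (d : ℕ) : 0 < √Real.pi ^ d / Real.Gamma ((d : ℝ) / 2 + 1) := by
  have : 0 < √Real.pi := Real.sqrt_pos.2 Real.pi_pos
  have h2 : 0 < Real.Gamma ((d : ℝ) / 2 + 1) := Real.Gamma_pos_of_pos (by positivity)
  positivity

/-- the inequality, with its equality case -/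
lemma mass_le (hd : 0 < d) {M : Set (Fin d → ℝ)} (hM : IsSymConvexBody M) :
    mass M ≤ √Real.pi ^ d / Real.Gamma ((d : ℝ) / 2 + 1) ∧
    (mass M = √Real.pi ^ d / Real.Gamma ((d : ℝ) / 2 + 1) → IsEllipsoid M) := by
  obtain ⟨v, hv, hpos, hmax⟩ := exists_maximizer hM
  have hme := (mass_eq hd hv hpos hmax).2
  have hmac := macbeath_pi d hM.isCompact hM.convex hmax
  rw [kappa_val hd, ← ENNReal.ofReal_mul (kappa_pos d).le] at hmac
  have hfin : volume M ≠ ⊤ := hM.isCompact.measure_lt_top.ne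
  have h1 := ENNReal.toReal_le_of_le_ofReal (mul_pos (kappa_pos d) hpos).le hmac
  refine ⟨by rw [hme, div_le_iff₀ hpos]; exact h1, fun heq => ?_⟩
  -- the equality case
  rw [hme, div_eq_iff hpos.ne'] at heq
  obtain ⟨m, rfl⟩ : ∃ m, d = m + 1 := ⟨d - 1, by omega⟩
  set e := EuclideanSpace.equiv (Fin (m + 1)) ℝ with he
  set L : Set (EE m) := e.symm '' M with hL
  have hLM : L = (WithLp.ofLp : EuclideanSpace ℝ (Fin (m + 1)) → Fin (m + 1) → ℝ) ⁻¹' M :=
    e.toEquiv.symm.image_eq_preimage_symm M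
  have hvol : volume L = volume M := by
    rw [hLM]
    exact (PiLp.volume_preserving_ofLp (Fin (m + 1))).measure_preimage
      hM.isCompact.measurableSet.nullMeasurableSet
  have hEq : IsEq L |(Matrix.of v).det| := by
    refine ⟨hM.isCompact.image e.symm.continuous, hM.convex.linear_image e.symm.toLinearMap, ?_,
      ?_, ?_, hpos⟩
    · obtain ⟨x, hx⟩ := hM.interior_nonempty
      refine ⟨e.symm x, ?_⟩
      have h2 : e.symm '' interior M ⊆ interior (e.symm '' M) :=
        interior_maximal (image_mono interior_subset)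
          (e.symm.toHomeomorph.isOpenMap _ isOpen_interior)
      exact h2 ⟨x, hx, rfl⟩
    · intro w hw
      have hw' : ∀ i, WithLp.ofLp (w i) ∈ M := fun i => by
        have := hw i
        rw [hLM] at this
        exact this
      have h2 := hmax (fun i => WithLp.ofLp (w i)) hw'
      rw [adet, Basis.det_apply]
      have h3 : (EuclideanSpace.basisFun (Fin (m + 1)) ℝ).toBasis.toMatrix w =
          (Matrix.of fun i => WithLp.ofLp (w i)).transpose := by
        ext i j
        rw [Basis.toMatrix_apply]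
        rfl
      rw [h3, Matrix.det_transpose]
      exact h2
    · rw [hvol, kap_eq, kappa_val hd, ← ENNReal.ofReal_mul (kappa_pos _).le, ← heq,
        ENNReal.ofReal_toReal hfin]
  have hsym : ∀ x ∈ L, -x ∈ L := by
    rintro _ ⟨x, hx, rfl⟩
    exact ⟨-x, hM.neg_mem x hx, map_neg _ _⟩
  obtain ⟨A, hA⟩ := hEq.ellipsoid hsym
  refine ⟨(e.symm.trans A).toLinearEquiv.trans e.toLinearEquiv, ?_⟩
  have hball : closedBall (0 : EE m) 1 = e.symm '' {x | ∑ i, x i ^ 2 ≤ 1} := by
    have h2 : e.symm '' {x : Fin (m + 1) → ℝ | ∑ i, x i ^ 2 ≤ 1} =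
        (WithLp.ofLp : EuclideanSpace ℝ (Fin (m + 1)) → Fin (m + 1) → ℝ) ⁻¹'
          {x | ∑ i, x i ^ 2 ≤ 1} := e.toEquiv.symm.image_eq_preimage_symm _
    rw [h2]
    exact (ofLp_preimage_eball (m + 1)).symm
  have h3 : M = e '' L := by
    rw [hL, image_image]
    simp
  rw [h3, hA, hball, image_image, image_image]
  rfl

lemma mass_ellipsoid (hd : 0 < d) (A : (Fin d → ℝ) ≃ₗ[ℝ] (Fin d → ℝ)) :
    IsSymConvexBody (A '' {x | ∑ i, x i ^ 2 ≤ 1}) ∧
    mass (A '' {x | ∑ i, x i ^ 2 ≤ 1}) = √Real.pi ^ d / Real.Gamma ((d : ℝ) / 2 + 1) := by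
  have hAc : Continuous A := LinearMap.continuous_of_finiteDimensional A.toLinearMap
  have hdet : 0 < |LinearMap.det A.toLinearMap| :=
    abs_pos.2 (LinearEquiv.isUnit_det' A).ne_zero
  have hball : ({x | ∑ i, x i ^ 2 ≤ 1} : Set (Fin d → ℝ)) = eball d := rfl
  have hbody : IsSymConvexBody (A '' {x | ∑ i, x i ^ 2 ≤ 1}) := by
    rw [hball]
    refine ⟨(eball_compact d).image hAc, (eball_convex d).linear_image A.toLinearMap, ?_, ?_⟩
    · refine ⟨A 0, ?_⟩
      let A' : (Fin d → ℝ) ≃L[ℝ] (Fin d → ℝ) := A.toContinuousLinearEquiv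
      have h2 : A' '' interior (eball d) ⊆ interior (A' '' eball d) :=
        interior_maximal (image_mono interior_subset)
          (A'.toHomeomorph.isOpenMap _ isOpen_interior)
      refine h2 ⟨0, ?_, rfl⟩
      rw [mem_interior]
      refine ⟨{x | ∑ i, x i ^ 2 < 1}, ?_, ?_, by simp⟩
      · intro x hx
        have hx' : ∑ i, x i ^ 2 < 1 := hx
        exact hx'.le
      · exact isOpen_lt (by fun_prop) continuous_const
    · rintro _ ⟨x, hx, rfl⟩
      refine ⟨-x, ?_, map_neg _ _⟩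
      have h1 : ∑ i, x i ^ 2 ≤ 1 := hx
      show ∑ i, (-x) i ^ 2 ≤ 1
      simpa using h1
  refine ⟨hbody, ?_⟩
  -- a maximizing tuple
  have hdetA : ∀ w : Fin d → Fin d → ℝ, (Matrix.of (fun i => A (w i))).det =
      LinearMap.det A.toLinearMap * (Matrix.of w).det := by
    intro w
    have h1 := (Pi.basisFun ℝ (Fin d)).det_comp A.toLinearMap w
    rw [Pi.basisFun_det] at h1
    exact h1
  set v : Fin d → Fin d → ℝ := fun i => A (Pi.single i (1:ℝ)) with hv
  have hvdet : (Matrix.of v).det = LinearMap.det A.toLinearMap := by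
    rw [hv, hdetA]
    have : Matrix.of (fun i => (Pi.single i (1:ℝ) : Fin d → ℝ)) = (1 : Matrix (Fin d) (Fin d) ℝ) := by
      ext i j
      rw [Matrix.of_apply, Matrix.one_apply, Pi.single_apply]
      simp only [eq_comm]
    rw [this, Matrix.det_one, mul_one]
  have hvM : ∀ i, v i ∈ A '' {x : Fin d → ℝ | ∑ i, x i ^ 2 ≤ 1} := by
    intro i
    refine ⟨_, ?_, rfl⟩
    show ∑ j, (Pi.single i (1:ℝ) : Fin d → ℝ) j ^ 2 ≤ 1
    rw [Finset.sum_eq_single i]
    · simp
    · intro j _ hj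
      simp [hj]
    · simp
  have hmax : ∀ w : Fin d → Fin d → ℝ, (∀ i, w i ∈ A '' {x : Fin d → ℝ | ∑ i, x i ^ 2 ≤ 1}) →
      |(Matrix.of w).det| ≤ |(Matrix.of v).det| := by
    intro w hw
    choose z hz hze using hw
    have e : w = fun i => A (z i) := funext fun i => (hze i).symm
    rw [e, hdetA, hvdet, abs_mul]
    have h1 := det_eball z hz
    calc |LinearMap.det A.toLinearMap| * |(Matrix.of z).det|
        ≤ |LinearMap.det A.toLinearMap| * 1 := by gcongr
      _ = _ := mul_one _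
  rw [(mass_eq hd hvM (by rw [hvdet]; exact hdet) hmax).2, hvdet]
  have h1 : volume (A '' {x : Fin d → ℝ | ∑ i, x i ^ 2 ≤ 1}) =
      ENNReal.ofReal |LinearMap.det A.toLinearMap| * kappa d :=
    Measure.addHaar_image_linearMap volume A.toLinearMap (eball d)
  rw [h1, kappa_val hd, ENNReal.toReal_mul, ENNReal.toReal_ofReal hdet.le,
    ENNReal.toReal_ofReal (kappa_pos d).le, mul_div_cancel_left₀ _ hdet.ne']

/-- For every `d ≥ 1`:
the largest volume of an inscribed cross-polytope exists and is positive for every `o`-symmetric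
convex body; the largest value of Gromov's mass `vol^m_M (M)` over all `o`-symmetric convex bodies
`M` of `ℝ ^ d` is the volume `π ^ (d/2) / Γ (d/2 + 1)` of the Euclidean unit ball; and it is
attained exactly when `M` is an ellipsoid. -/
theorem result (d : ℕ) (hd : 1 ≤ d) :
    (∀ M : Set (Fin d → ℝ), IsSymConvexBody M → ∃ r, 0 < r ∧ IsGreatest (crossVolumes M) r) ∧
    IsGreatest {c : ℝ | ∃ M : Set (Fin d → ℝ), IsSymConvexBody M ∧ mass M = c}
      (√Real.pi ^ d / Real.Gamma ((d : ℝ) / 2 + 1)) ∧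
    (∀ M : Set (Fin d → ℝ), IsSymConvexBody M →
      (mass M = √Real.pi ^ d / Real.Gamma ((d : ℝ) / 2 + 1) ↔ IsEllipsoid M)) ∧
    (∀ M : Set (Fin d → ℝ), IsEllipsoid M → IsSymConvexBody M) := by
  refine ⟨fun M hM => ?_, ⟨?_, ?_⟩, fun M hM => ⟨(mass_le hd hM).2, ?_⟩, ?_⟩
  · obtain ⟨v, hv, hpos, hmax⟩ := exists_maximizer hM
    exact ⟨_, mul_pos hpos (by positivity), (mass_eq hd hv hpos hmax).1⟩
  · exact ⟨_, mass_ellipsoid hd (LinearEquiv.refl ℝ _)⟩
  · rintro c ⟨M, hM, rfl⟩
    exact (mass_le hd hM).1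
  · rintro ⟨A, rfl⟩
    exact (mass_ellipsoid hd A).2
  · rintro M ⟨A, rfl⟩
    exact (mass_ellipsoid hd A).1

end Pool.Agent.Results.MP_77d991_gt.MaximalMass
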